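import Pool.Agent.TH222.RG.R4.E0
import Pool.Agent.TH222.RG.R4.E1
import Pool.Agent.TH222.RG.R4.E2
import Pool.Agent.TH222.RG.R4.E3
import Pool.Agent.TH222.RG.R4.E4
import Pool.Agent.TH222.RG.R4.E5
import Pool.Agent.TH222.RG.R4.E6
import Pool.Agent.TH222.RG.R4.E7
import Pool.Agent.TH222.RG.R4.E8
import Pool.Agent.TH222.RG.R4.E9
import Pool.Agent.TH222.RG.R4.E10
import Pool.Agent.TH222.RG.R4.E11
import Pool.Agent.TH222.RG.R4.E12
import Pool.Agent.TH222.RG.R4.E13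
import Pool.Agent.TH222.RG.R4.E14
import Pool.Agent.TH222.RG.R4.E15
import Pool.Agent.TH222.RG.R4.E16
import Pool.Agent.TH222.RG.R4.E17
import Pool.Agent.TH222.RG.R4.E18
import Pool.Agent.TH222.RG.R4.E19
import Pool.Agent.TH222.RG.R4.E20
import Pool.Agent.TH222.RG.R4.E21

set_option autoImplicit false

/-! All types of the table pass the checker. -/

namespace Pool.Agent.TH222.RG.R4

theorem cons_ok {t : BT} {l : List BT} {es : List Ent} (h : chkBT 4 6 tbl t es = true)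
    (hl : ∀ t ∈ l, ∃ es, chkBT 4 6 tbl t es = true) : ∀ t' ∈ t :: l, ∃ es, chkBT 4 6 tbl t' es = true := by
  intro t' ht'
  rcases List.mem_cons.1 ht' with h' | h'
  · subst h'; exact ⟨es, h⟩
  · exact hl t' h'

theorem nil_ok : ∀ t ∈ ([] : List BT), ∃ es, chkBT 4 6 tbl t es = true :=
  fun _ ht => absurd ht List.not_mem_nil

theorem okB0 : ∀ t ∈ B0, ∃ es, chkBT 4 6 tbl t es = true :=
  (cons_ok ok0 (cons_ok ok1 (cons_ok ok2 (cons_ok ok3 (cons_ok ok4 (cons_ok ok5 (cons_ok ok6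
  (cons_ok ok7 (cons_ok ok8 (cons_ok ok9 (cons_ok ok10 (cons_ok ok11 (cons_ok ok12 (cons_ok
  ok13 (cons_ok ok14 (cons_ok ok15 nil_ok))))))))))))))))

theorem okB1 : ∀ t ∈ B1, ∃ es, chkBT 4 6 tbl t es = true :=
  (cons_ok ok16 (cons_ok ok17 (cons_ok ok18 (cons_ok ok19 (cons_ok ok20 (cons_ok ok21
  (cons_ok ok22 (cons_ok ok23 (cons_ok ok24 (cons_ok ok25 (cons_ok ok26 (cons_ok ok27
  (cons_ok ok28 (cons_ok ok29 (cons_ok ok30 (cons_ok ok31 nil_ok))))))))))))))))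

theorem okB2 : ∀ t ∈ B2, ∃ es, chkBT 4 6 tbl t es = true :=
  (cons_ok ok32 (cons_ok ok33 (cons_ok ok34 (cons_ok ok35 (cons_ok ok36 (cons_ok ok37
  (cons_ok ok38 (cons_ok ok39 (cons_ok ok40 (cons_ok ok41 (cons_ok ok42 (cons_ok ok43
  (cons_ok ok44 (cons_ok ok45 (cons_ok ok46 (cons_ok ok47 nil_ok))))))))))))))))

theorem okB3 : ∀ t ∈ B3, ∃ es, chkBT 4 6 tbl t es = true :=
  (cons_ok ok48 (cons_ok ok49 (cons_ok ok50 (cons_ok ok51 (cons_ok ok52 (cons_ok ok53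
  (cons_ok ok54 (cons_ok ok55 (cons_ok ok56 (cons_ok ok57 (cons_ok ok58 (cons_ok ok59
  (cons_ok ok60 (cons_ok ok61 (cons_ok ok62 (cons_ok ok63 nil_ok))))))))))))))))

theorem okB4 : ∀ t ∈ B4, ∃ es, chkBT 4 6 tbl t es = true :=
  (cons_ok ok64 (cons_ok ok65 (cons_ok ok66 (cons_ok ok67 (cons_ok ok68 (cons_ok ok69
  (cons_ok ok70 (cons_ok ok71 (cons_ok ok72 (cons_ok ok73 (cons_ok ok74 (cons_ok ok75
  (cons_ok ok76 (cons_ok ok77 (cons_ok ok78 (cons_ok ok79 nil_ok))))))))))))))))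

theorem okB5 : ∀ t ∈ B5, ∃ es, chkBT 4 6 tbl t es = true :=
  (cons_ok ok80 (cons_ok ok81 (cons_ok ok82 (cons_ok ok83 (cons_ok ok84 (cons_ok ok85
  (cons_ok ok86 (cons_ok ok87 (cons_ok ok88 (cons_ok ok89 (cons_ok ok90 (cons_ok ok91
  (cons_ok ok92 (cons_ok ok93 (cons_ok ok94 (cons_ok ok95 nil_ok))))))))))))))))

theorem okB6 : ∀ t ∈ B6, ∃ es, chkBT 4 6 tbl t es = true :=
  (cons_ok ok96 (cons_ok ok97 (cons_ok ok98 (cons_ok ok99 (cons_ok ok100 (cons_ok ok101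
  (cons_ok ok102 (cons_ok ok103 (cons_ok ok104 (cons_ok ok105 (cons_ok ok106 (cons_ok ok107
  (cons_ok ok108 (cons_ok ok109 (cons_ok ok110 (cons_ok ok111 nil_ok))))))))))))))))

theorem okB7 : ∀ t ∈ B7, ∃ es, chkBT 4 6 tbl t es = true :=
  (cons_ok ok112 (cons_ok ok113 (cons_ok ok114 (cons_ok ok115 (cons_ok ok116 (cons_ok ok117
  (cons_ok ok118 (cons_ok ok119 (cons_ok ok120 (cons_ok ok121 (cons_ok ok122 (cons_ok ok123
  (cons_ok ok124 (cons_ok ok125 (cons_ok ok126 (cons_ok ok127 nil_ok))))))))))))))))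

theorem okB8 : ∀ t ∈ B8, ∃ es, chkBT 4 6 tbl t es = true :=
  (cons_ok ok128 (cons_ok ok129 (cons_ok ok130 (cons_ok ok131 (cons_ok ok132 (cons_ok ok133
  (cons_ok ok134 (cons_ok ok135 (cons_ok ok136 (cons_ok ok137 (cons_ok ok138 (cons_ok ok139
  (cons_ok ok140 (cons_ok ok141 (cons_ok ok142 (cons_ok ok143 nil_ok))))))))))))))))

theorem okB9 : ∀ t ∈ B9, ∃ es, chkBT 4 6 tbl t es = true :=
  (cons_ok ok144 (cons_ok ok145 (cons_ok ok146 (cons_ok ok147 (cons_ok ok148 (cons_ok ok149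
  (cons_ok ok150 (cons_ok ok151 (cons_ok ok152 (cons_ok ok153 (cons_ok ok154 (cons_ok ok155
  (cons_ok ok156 (cons_ok ok157 (cons_ok ok158 (cons_ok ok159 nil_ok))))))))))))))))

theorem okB10 : ∀ t ∈ B10, ∃ es, chkBT 4 6 tbl t es = true :=
  (cons_ok ok160 (cons_ok ok161 nil_ok))

theorem okBB : ∀ B ∈ BB, ∀ t ∈ B, ∃ es, chkBT 4 6 tbl t es = true := by
  intro B hB
  simp only [BB, List.mem_cons, List.not_mem_nil, or_false] at hB
  rcases hB with h | h | h | h | h | h | h | h | h | h | h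
  · subst h; exact okB0
  · subst h; exact okB1
  · subst h; exact okB2
  · subst h; exact okB3
  · subst h; exact okB4
  · subst h; exact okB5
  · subst h; exact okB6
  · subst h; exact okB7
  · subst h; exact okB8
  · subst h; exact okB9
  · subst h; exact okB10

theorem getD_cases {α : Type} (l : List α) (i : ℕ) (d : α) : l.getD i d ∈ l ∨ l.getD i d = d := by
  by_cases h : i < l.length
  · left
    rw [List.getD_eq_getElem _ _ h]
    exact List.getElem_mem h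
  · right
    exact List.getD_eq_default _ _ (not_lt.1 h)

theorem tbl_cases (i : ℕ) : (∃ B ∈ BB, tbl i ∈ B) ∨ tbl i = T0 := by
  unfold tbl
  rcases getD_cases BB (Nat.div i 16) [] with h | h
  · rcases getD_cases (BB.getD (Nat.div i 16) []) (Nat.mod i 16) T0 with h' | h'
    · exact Or.inl ⟨_, h, h'⟩
    · exact Or.inr h'
  · right
    rw [h]
    simp

theorem ok_all (i : ℕ) : ∃ es, chkBT 4 6 tbl (tbl i) es = true := by
  rcases tbl_cases i with ⟨B, hB, h⟩ | h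
  · exact okBB B hB _ h
  · rw [h]; exact ⟨E0, ok0⟩

theorem pos_all_aux : (BB.all fun B => B.all fun t => Nat.blt 0 t.n) = true := by decide +kernel

theorem pos_all (i : ℕ) : 0 < (tbl i).n := by
  rcases tbl_cases i with ⟨B, hB, h⟩ | h
  · have := List.all_eq_true.1 (List.all_eq_true.1 pos_all_aux B hB) _ h
    exact Nat.le_of_ble_eq_true this
  · rw [h]; exact Nat.one_pos

end Pool.Agent.TH222.RG.R4
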